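import Mathlib

/-!
Exponentials of operators: intertwining, and the exponential of a weighted shift times a slow multiplier
(helper550).
-/

set_option autoImplicit false
open scoped ComplexConjugate Topology
open Filter MeasureTheory NormedSpace

namespace Pool.Agent.TH550.LP

section
variable {E F : Type} [NormedAddCommGroup E] [NormedSpace ℂ E] [CompleteSpace E]
  [NormedAddCommGroup F] [NormedSpace ℂ F] [CompleteSpace F]

theorem exp_hs (T : E →L[ℂ] E) (x : E) :
    HasSum (fun n : ℕ => ((n.factorial : ℂ)⁻¹) • (T ^ n) x) (exp T x) := by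
  have h := NormedSpace.exp_series_hasSum_exp' (𝕂 := ℂ) T
  have h2 := h.mapL (ContinuousLinearMap.apply ℂ E x)
  exact h2

theorem exp_neg_exp (T : E →L[ℂ] E) (x : E) : exp (-T) (exp T x) = x := by
  let _ : NormedAlgebra ℚ (E →L[ℂ] E) := .restrictScalars ℚ ℂ (E →L[ℂ] E)
  have h1 : exp (-T) * exp T = 1 := by
    have h2 : Commute (-T) T := (Commute.refl T).neg_left
    rw [← exp_add_of_commute h2, neg_add_cancel, exp_zero]
  have := congrArg (fun A : E →L[ℂ] E => A x) h1
  simpa [mul_apply_eq_comp] using this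

/-- intertwining of exponentials -/
theorem exp_int (A : E →+ F) (hsm : ∀ (r : ℝ) (x : E), A ((r : ℂ) • x) = (r : ℂ) • A x)
    (hc : Continuous A) (T1 : E →L[ℂ] E) (T2 : F →L[ℂ] F) (h : ∀ x, A (T1 x) = T2 (A x)) (x : E) :
    A (exp T1 x) = exp T2 (A x) := by
  have h1 := (exp_hs T1 x).map A hc
  have h2 := exp_hs T2 (A x)
  have h3 : ∀ n : ℕ, A ((T1 ^ n) x) = (T2 ^ n) (A x) := by
    intro n
    induction n with
    | zero => rfl
    | succ n ih => rw [pow_succ', pow_succ', mul_apply_eq_comp,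
        mul_apply_eq_comp, h, ih]
  have h4 : (A ∘ fun n : ℕ => ((n.factorial : ℂ)⁻¹) • (T1 ^ n) x)
      = fun n : ℕ => ((n.factorial : ℂ)⁻¹) • (T2 ^ n) (A x) := by
    funext n
    have := hsm ((n.factorial : ℝ)⁻¹) ((T1 ^ n) x)
    rw [Complex.ofReal_inv, Complex.ofReal_natCast] at this
    simp only [Function.comp_apply]
    rw [this, h3]
  rw [h4] at h1
  exact h1.unique h2

/-- exponentials and pairings -/
theorem exp_adj (T : E →L[ℂ] E) (T' : F →L[ℂ] F) (B : F → E → ℂ)
    (ha1 : ∀ g x y, B g (x + y) = B g x + B g y) (ha2 : ∀ g g' x, B (g + g') x = B g x + B g' x)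
    (hs1 : ∀ g (r : ℝ) x, B g ((r : ℂ) • x) = (r : ℂ) * B g x)
    (hs2 : ∀ g (r : ℝ) x, B ((r : ℂ) • g) x = (r : ℂ) * B g x)
    (M : ℝ) (hb : ∀ g x, ‖B g x‖ ≤ M * (‖g‖ * ‖x‖))
    (h : ∀ g x, B g (T x) = B (T' g) x) (g : F) (x : E) : B g (exp T x) = B (exp T' g) x := by
  let A1 : E →+ ℂ := AddMonoidHom.mk' (B g) (ha1 g)
  let A2 : F →+ ℂ := AddMonoidHom.mk' (fun g => B g x) (fun g g' => ha2 g g' x)
  have hc1 : Continuous A1 := AddMonoidHomClass.continuous_of_bound A1 (M * ‖g‖) (fun x => by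
    rw [mul_assoc]
    exact hb g x)
  have hc2 : Continuous A2 := AddMonoidHomClass.continuous_of_bound A2 (M * ‖x‖) (fun g => by
    rw [mul_assoc, mul_comm ‖x‖]
    exact hb g x)
  have h1 := (exp_hs T x).map A1 hc1
  have h2 := (exp_hs T' g).map A2 hc2
  have h3 : ∀ (n : ℕ) (g : F) (x : E), B g ((T ^ n) x) = B ((T' ^ n) g) x := by
    intro n
    induction n with
    | zero => intro g x; rfl
    | succ n ih =>
      intro g x
      rw [pow_succ', pow_succ, mul_apply_eq_comp,
        mul_apply_eq_comp, h, ih]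
  have h4 : (A1 ∘ fun n : ℕ => ((n.factorial : ℂ)⁻¹) • (T ^ n) x)
      = A2 ∘ fun n : ℕ => ((n.factorial : ℂ)⁻¹) • (T' ^ n) g := by
    funext n
    have e1 := hs1 g ((n.factorial : ℝ)⁻¹) ((T ^ n) x)
    have e2 := hs2 ((T' ^ n) g) ((n.factorial : ℝ)⁻¹) x
    rw [Complex.ofReal_inv, Complex.ofReal_natCast] at e1 e2
    show B g (((n.factorial : ℂ)⁻¹) • (T ^ n) x) = B (((n.factorial : ℂ)⁻¹) • (T' ^ n) g) x
    rw [e1, e2, h3]
  rw [h4] at h1
  exact h1.unique h2

end

section
variable {A : Type} [NormedRing A] [NormedAlgebra ℂ A] [CompleteSpace A]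

/-- `W^n N_0 = ∑ C(n,i) N_i W^n` when `W N_m = (N_m + N_{m+1}) W` -/
theorem pow_shift (W : A) (N : ℕ → A) (h : ∀ m, W * N m = (N m + N (m + 1)) * W) (n : ℕ) :
    W ^ n * N 0 = ∑ p ∈ Finset.HasAntidiagonal.antidiagonal n, (n.choose p.1) • (N p.1 * W ^ n) := by
  have key : ∀ n : ℕ, ∀ m : ℕ, W ^ n * N m = ∑ p ∈ Finset.HasAntidiagonal.antidiagonal n,
      (n.choose p.1) • (N (m + p.1) * W ^ n) := by
    intro n
    induction n with
    | zero => intro m; simp
    | succ n ih =>
      intro m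
      have e1 : W ^ (n + 1) * N m = (W ^ n * N m + W ^ n * N (m + 1)) * W := by
        rw [pow_succ, mul_assoc, h, ← mul_add, mul_assoc]
      rw [e1, ih m, ih (m + 1)]
      rw [Finset.sum_antidiagonal_choose_succ_nsmul (fun i _ => N (m + i) * W ^ (n + 1)) n]
      rw [add_mul, Finset.sum_mul, Finset.sum_mul]
      congr 1
      · refine Finset.sum_congr rfl fun p hp => ?_
        rw [smul_mul_assoc, mul_assoc, ← pow_succ]
      · refine Finset.sum_congr rfl fun p hp => ?_
        rw [Finset.HasAntidiagonal.mem_antidiagonal] at hp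
        have h1 : n.choose p.2 = n.choose p.1 := by
          rw [← hp, Nat.choose_symm_add]
        have h2 : m + 1 + p.1 = m + (p.1 + 1) := by omega
        rw [smul_mul_assoc, mul_assoc, ← pow_succ, h1, h2]
  have := key n 0
  simpa using this

theorem exp_shift (W : A) (N : ℕ → A) (h : ∀ m, W * N m = (N m + N (m + 1)) * W) (C B : ℝ)
    (hN : ∀ m, ‖N m‖ ≤ C * B ^ m) :
    HasSum (fun m : ℕ => ((m.factorial : ℂ)⁻¹) • (N m * W ^ m * exp W)) (exp W * N 0) := by
  have hC : 0 ≤ C := by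
    have := (norm_nonneg _).trans (hN 0)
    simpa using this
  set a : ℕ → A := fun m => ((m.factorial : ℂ)⁻¹) • (N m * W ^ m) with ha
  set b : ℕ → A := fun m => ((m.factorial : ℂ)⁻¹) • W ^ m with hb
  have hbs : Summable fun m => ‖b m‖ := NormedSpace.norm_expSeries_summable' (𝕂 := ℂ) W
  have has : Summable fun m => ‖a m‖ := by
    have h1 : Summable fun m : ℕ => C * ((B * ‖W‖) ^ m / m.factorial) :=
      (Real.summable_pow_div_factorial _).mul_left C
    have h2 : Summable fun m : ℕ => C * ((B * ‖W‖) ^ m / m.factorial) + (if m = 0 then ‖a 0‖ else 0)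
        := h1.add (summable_of_ne_finset_zero (s := {0}) (fun m hm => by
          rw [Finset.mem_singleton] at hm
          simp [hm]))
    refine Summable.of_nonneg_of_le (fun _ => norm_nonneg _) (fun m => ?_) h2
    rcases Nat.eq_zero_or_pos m with rfl | hm
    · simp only [if_true]
      have : 0 ≤ C * ((B * ‖W‖) ^ 0 / (Nat.factorial 0 : ℝ)) := by positivity
      linarith
    · simp only [hm.ne', if_false, add_zero]
      rw [ha]
      simp only
      rw [norm_smul, norm_inv, Complex.norm_natCast]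
      have h3 : ‖N m * W ^ m‖ ≤ (C * B ^ m) * ‖W‖ ^ m :=
        (norm_mul_le _ _).trans (mul_le_mul (hN m) (norm_pow_le' W hm) (norm_nonneg _)
          ((norm_nonneg _).trans (hN m)))
      calc ((m.factorial : ℝ))⁻¹ * ‖N m * W ^ m‖ ≤ ((m.factorial : ℝ))⁻¹ * ((C * B ^ m) * ‖W‖ ^ m) := by
            gcongr
        _ = C * ((B * ‖W‖) ^ m / m.factorial) := by
            rw [mul_pow]
            ring
  have e1 : HasSum (fun n => ∑ p ∈ Finset.HasAntidiagonal.antidiagonal n, a p.1 * b p.2)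
      ((∑' m, a m) * exp W) := by
    have h1 := summable_norm_sum_mul_antidiagonal_of_summable_norm has hbs
    have h2 := tsum_mul_tsum_eq_tsum_sum_antidiagonal_of_summable_norm has hbs
    have h3 : ∑' m, b m = exp W := (NormedSpace.exp_series_hasSum_exp' (𝕂 := ℂ) W).tsum_eq
    rw [h3] at h2
    rw [h2]
    exact h1.of_norm.hasSum
  have e2 : ∀ n, ∑ p ∈ Finset.HasAntidiagonal.antidiagonal n, a p.1 * b p.2
      = ((n.factorial : ℂ)⁻¹) • (W ^ n * N 0) := by
    intro n
    rw [pow_shift W N h n, Finset.smul_sum]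
    refine Finset.sum_congr rfl fun p hp => ?_
    rw [Finset.HasAntidiagonal.mem_antidiagonal] at hp
    rw [ha, hb]
    simp only
    rw [smul_mul_smul_comm, mul_assoc, ← pow_add, hp, ← Nat.cast_smul_eq_nsmul ℂ, smul_smul]
    congr 1
    rw [← hp, Nat.cast_add_choose]
    have h1 : ((p.1 + p.2).factorial : ℂ) ≠ 0 := by exact_mod_cast (Nat.factorial_ne_zero _)
    have h2 : (p.1.factorial : ℂ) ≠ 0 := by exact_mod_cast (Nat.factorial_ne_zero _)
    have h3 : (p.2.factorial : ℂ) ≠ 0 := by exact_mod_cast (Nat.factorial_ne_zero _)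
    field_simp
  have e3 : HasSum (fun n => ((n.factorial : ℂ)⁻¹) • (W ^ n * N 0)) (exp W * N 0) := by
    have h1 := (NormedSpace.exp_series_hasSum_exp' (𝕂 := ℂ) W).mul_right (N 0)
    simp only [smul_mul_assoc] at h1
    exact h1
  simp_rw [e2] at e1
  have e4 : (∑' m, a m) * exp W = exp W * N 0 := e1.unique e3
  have e5 := (has.of_norm.hasSum).mul_right (exp W)
  rw [e4] at e5
  have e6 : (fun m => a m * exp W) = fun m : ℕ => ((m.factorial : ℂ)⁻¹) • (N m * W ^ m * exp W) := by
    funext m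
    rw [ha]
    simp only [smul_mul_assoc]
  rw [e6] at e5
  exact e5

end

end Pool.Agent.TH550.LP
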