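import Pool.Agent.TH550.LP.Seqs

/-!
From the field theorem to vectors with prescribed growth (helper550).
-/

set_option autoImplicit false
open scoped ComplexConjugate InnerProductSpace Topology
open Filter MeasureTheory NormedSpace

namespace Pool.Agent.TH550.LP
open Pool.Agent.H712R5.BO Pool.Agent.H417B Pool.Agent.H270R3.CT

theorem fld_gdata {H : Type} [NormedAddCommGroup H] [InnerProductSpace ℂ H] [CompleteSpace H]
    {ι : Type} [Fintype ι] {N : StarSubalgebra ℂ (H →L[ℂ] H)}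
    {u : unitary (H →L[ℂ] H)} {v : ι → H} (hD : Dt N u v) (T : H →L[ℂ] H) (hF : Fld N u T) :
    ∃ θ : UnitAddCircle, GData ((fourier 1 θ : ℂ) • T) := by
  obtain ⟨ψ, hψ, hψ1, Y, hY, hYm, ⟨C, hYb⟩, hYc, hYn⟩ := hF
  by_contra hcon
  push Not at hcon
  have hsc : ∀ᵐ θ ∂AddCircle.haarAddCircle, ∃ c : ℂ, Y θ = c • 1 := by
    filter_upwards [hY] with θ hθ
    by_contra hns
    exact hcon θ (gdata _ ψ hψ hψ1 (Y θ) hθ hns)
  -- a unit vector
  obtain ⟨e, he⟩ : ∃ e : H, ‖e‖ = 1 := by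
    by_contra hno
    push Not at hno
    have hz : ∀ j, v j = 0 := by
      intro j
      by_contra hj
      refine hno ((‖v j‖⁻¹ : ℂ) • v j) ?_
      rw [norm_smul, norm_inv, Complex.norm_real, norm_norm, inv_mul_cancel₀]
      exact norm_ne_zero_iff.2 hj
    have := hD.nm
    simp [hz] at this
  set z : UnitAddCircle → ℂ := fun θ => ⟪e, Y θ e⟫_ℂ with hz
  have hee : ⟪e, e⟫_ℂ = 1 := by
    rw [inner_self_eq_norm_sq_to_K, he]
    simp
  have hYz : ∀ᵐ θ ∂AddCircle.haarAddCircle, Y θ = z θ • 1 := by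
    filter_upwards [hsc] with θ ⟨c, hc⟩
    have : z θ = c := by
      rw [hz]
      simp only
      rw [hc]
      show ⟪e, c • e⟫_ℂ = c
      rw [inner_smul_right, hee, mul_one]
    rw [this]
    exact hc
  have hzm : AEStronglyMeasurable z AddCircle.haarAddCircle := hYm e e
  have hzb : ∀ᵐ θ ∂AddCircle.haarAddCircle, ‖z θ‖ ≤ C := by
    filter_upwards [hYb] with θ hθ
    calc ‖z θ‖ ≤ ‖e‖ * ‖Y θ e‖ := norm_inner_le_norm _ _
      _ ≤ ‖e‖ * (‖Y θ‖ * ‖e‖) := by
          gcongr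
          exact (Y θ).le_opNorm e
      _ ≤ C := by rw [he, one_mul, mul_one]; exact hθ
  have hzL : MemLp z 2 AddCircle.haarAddCircle := MemLp.of_bound hzm C hzb
  have hFC : ∀ (n : ℤ) (x y : H), ∫ θ, (fourier (-n) θ : ℂ) * ⟪x, Y θ y⟫_ℂ
      ∂AddCircle.haarAddCircle = (∫ θ, (fourier (-n) θ : ℂ) * z θ ∂AddCircle.haarAddCircle) *
        ⟪x, y⟫_ℂ := by
    intro n x y
    rw [← integral_mul_const]
    refine integral_congr_ae ?_
    filter_upwards [hYz] with θ hθ
    have : Y θ y = z θ • y := by rw [hθ]; rfl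
    rw [this, inner_smul_right, mul_assoc]
  have hI : ∀ n : ℤ, n ≠ 0 → ∫ θ, (fourier (-n) θ : ℂ) * z θ ∂AddCircle.haarAddCircle = 0 := by
    intro n hn
    obtain ⟨cc, hcc, hne⟩ := hD.ap n hn
    by_contra hI0
    apply hne
    set p : H →L[ℂ] H := ((u ^ n : unitary (H →L[ℂ] H)) : H →L[ℂ] H) with hp
    have hqp : star p * p = 1 := (Unitary.mem_iff.mp (u ^ n).2).1
    have key : ∀ x y : H, ⟪x, cc y⟫_ℂ = ⟪x, (p * cc * star p) y⟫_ℂ := by
      intro x y
      have h4 := hYc n cc hcc x y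
      rw [hFC n x (cc y), hFC n (star (p * cc * star p) x) y] at h4
      have h5 := mul_left_cancel₀ hI0 h4
      rw [h5, ContinuousLinearMap.star_eq_adjoint, ContinuousLinearMap.adjoint_inner_left]
    have h6 : cc = p * cc * star p := by
      ext y
      exact ext_inner_left ℂ fun x => key x y
    calc p * cc = p * cc * (star p * p) := by rw [hqp, mul_one]
      _ = (p * cc * star p) * p := by simp only [mul_assoc]
      _ = cc * p := by rw [← h6]
  obtain ⟨c0, hc0⟩ := t_G9b z hzL hI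
  refine hYn ⟨c0, ?_⟩
  filter_upwards [hYz, hc0] with θ h1 h2
  rw [h1, h2]

end Pool.Agent.TH550.LP
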