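import Mathlib

/-!
Fejér type kernels on `ℤ` with `ℓ¹` bounds for all differences (helper550).
-/

set_option autoImplicit false
open scoped ComplexConjugate Topology
open Filter MeasureTheory

namespace Pool.Agent.TH550.LP

/-- the difference operator on sequences -/
def dz {E : Type} [AddCommGroup E] (K : ℤ → E) : ℤ → E := fun k => K (k - 1) - K k

theorem dz_add {E : Type} [AddCommGroup E] (K L : ℤ → E) : dz (K + L) = dz K + dz L := by
  funext k
  simp only [dz, Pi.add_apply]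
  abel

theorem dz_iter_add {E : Type} [AddCommGroup E] (m : ℕ) (K L : ℤ → E) :
    dz^[m] (K + L) = dz^[m] K + dz^[m] L := by
  induction m generalizing K L with
  | zero => rfl
  | succ m ih => rw [Function.iterate_succ_apply, Function.iterate_succ_apply,
      Function.iterate_succ_apply, dz_add, ih]

/-- bounded functions supported in `(0, 1/P]` -/
structure Adm (P a : ℝ) (f : ℝ → ℂ) : Prop where
  meas : Measurable f
  bd : ∀ x, ‖f x‖ ≤ a
  sup : ∀ x, x ∉ Set.Ioc (0:ℝ) (1 / P) → f x = 0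

/-- Fourier coefficients on `[0,1]` -/
noncomputable def cf (f : ℝ → ℂ) (k : ℤ) : ℂ :=
  ∫ x in (0:ℝ)..1, Complex.exp (-(2 * Real.pi * k * x) * Complex.I) * f x

theorem cf_eq (f : ℝ → ℂ) (k : ℤ) :
    fourierCoeffOn (zero_lt_one : (0:ℝ) < 1) f k = cf f k := by
  rw [fourierCoeffOn_eq_integral, cf]
  simp only [sub_zero, div_one, one_smul, smul_eq_mul]
  refine intervalIntegral.integral_congr fun x _ => ?_
  congr 1
  rw [fourier_coe_apply]
  congr 1
  push_cast
  ring

theorem Adm.memLp {P a : ℝ} {f : ℝ → ℂ} (hf : Adm P a f) :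
    MemLp f 2 (volume.restrict (Set.Ioc (0:ℝ) 1)) :=
  MemLp.of_bound hf.meas.aestronglyMeasurable a (Eventually.of_forall hf.bd)

theorem Adm.nonneg {P a : ℝ} {f : ℝ → ℂ} (hf : Adm P a f) : 0 ≤ a :=
  (norm_nonneg _).trans (hf.bd 0)

theorem Adm.integrable {P a : ℝ} {f : ℝ → ℂ} (hf : Adm P a f) (k : ℤ) :
    IntervalIntegrable (fun x => Complex.exp (-(2 * Real.pi * k * x) * Complex.I) * f x)
      volume 0 1 := by
  rw [intervalIntegrable_iff_integrableOn_Ioc_of_le zero_le_one]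
  refine Integrable.of_bound (C := a) ?_ ?_
  · exact ((by fun_prop : Measurable fun x : ℝ =>
      Complex.exp (-(2 * Real.pi * k * x) * Complex.I)).mul hf.meas).aestronglyMeasurable
  · refine Eventually.of_forall fun x => ?_
    rw [norm_mul]
    have : ‖Complex.exp (-(2 * Real.pi * k * x) * Complex.I)‖ = 1 := by
      have h := Complex.norm_exp_ofReal_mul_I (-(2 * Real.pi * k * x))
      push_cast at h
      exact h
    rw [this, one_mul]
    exact hf.bd x

/-- Parseval -/
theorem Adm.hasSum {P a : ℝ} {f : ℝ → ℂ} (hf : Adm P a f) (hP : 1 ≤ P) :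
    ∃ s : ℝ, HasSum (fun k => ‖cf f k‖ ^ 2) s ∧ s ≤ a ^ 2 / P := by
  have h1 := hasSum_sq_fourierCoeffOn (zero_lt_one : (0:ℝ) < 1) hf.memLp
  simp only [cf_eq] at h1
  refine ⟨_, h1, ?_⟩
  have hP0 : 0 < P := by linarith
  have hP1 : 1 / P ≤ 1 := by rw [div_le_one hP0]; exact hP
  rw [sub_zero, inv_one, one_smul, intervalIntegral.integral_of_le zero_le_one]
  have h2 : ∫ x in Set.Ioc (0:ℝ) 1, ‖f x‖ ^ 2 ≤ ∫ x in Set.Ioc (0:ℝ) 1,
      (Set.Ioc (0:ℝ) (1 / P)).indicator (fun _ => a ^ 2) x := by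
    refine integral_mono_of_nonneg (Eventually.of_forall fun x => by positivity) ?_ ?_
    · exact (integrable_const _).indicator measurableSet_Ioc
    · refine Eventually.of_forall fun x => ?_
      by_cases hx : x ∈ Set.Ioc (0:ℝ) (1 / P)
      · simp only [Set.indicator_of_mem hx]
        exact pow_le_pow_left₀ (norm_nonneg _) (hf.bd x) 2
      · simp only [Set.indicator_of_notMem hx, hf.sup x hx, norm_zero]
        norm_num
  refine h2.trans (le_of_eq ?_)
  rw [setIntegral_indicator measurableSet_Ioc]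
  have h3 : Set.Ioc (0:ℝ) 1 ∩ Set.Ioc (0:ℝ) (1 / P) = Set.Ioc (0:ℝ) (1 / P) := by
    apply Set.inter_eq_right.2
    intro x hx
    exact ⟨hx.1, hx.2.trans hP1⟩
  rw [h3, setIntegral_const]
  simp only [Measure.real, Real.volume_Ioc, sub_zero, smul_eq_mul]
  rw [ENNReal.toReal_ofReal (by positivity)]
  ring

/-- the bilinear expression -/
noncomputable def BB (f g : ℝ → ℂ) : ℤ → ℂ := fun k => cf f k * conj (cf g k)

/-- `e^{2πix}` -/
noncomputable def ee (x : ℝ) : ℂ := Complex.exp ((2 * Real.pi * x : ℝ) * Complex.I)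

theorem ee_norm (x : ℝ) : ‖ee x‖ = 1 := Complex.norm_exp_ofReal_mul_I _

theorem ee_meas : Measurable ee := by unfold ee; fun_prop

theorem ee_sub_one (x : ℝ) (hx : 0 ≤ x) : ‖ee x - 1‖ ≤ 2 * Real.pi * x := by
  have h := Real.norm_exp_I_mul_ofReal_sub_one_le (x := 2 * Real.pi * x)
  rw [mul_comm Complex.I] at h
  refine h.trans (le_of_eq ?_)
  rw [Real.norm_eq_abs, abs_of_nonneg (by positivity)]

theorem cf_shift (f : ℝ → ℂ) (k : ℤ) : cf f (k - 1) = cf (fun x => ee x * f x) k := by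
  unfold cf
  refine intervalIntegral.integral_congr fun x _ => ?_
  simp only
  rw [← mul_assoc, ee, ← Complex.exp_add]
  congr 2
  push_cast
  ring

theorem cf_sub {P a b : ℝ} {f g : ℝ → ℂ} (hf : Adm P a f) (hg : Adm P b g) (k : ℤ) :
    cf (fun x => f x - g x) k = cf f k - cf g k := by
  unfold cf
  rw [← intervalIntegral.integral_sub (hf.integrable k) (hg.integrable k)]
  refine intervalIntegral.integral_congr fun x _ => ?_
  simp only
  ring

theorem Adm.ee {P a : ℝ} {f : ℝ → ℂ} (hf : Adm P a f) : Adm P a (fun x => ee x * f x) :=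
  ⟨ee_meas.mul hf.meas, fun x => by rw [norm_mul, ee_norm, one_mul]; exact hf.bd x,
    fun x hx => by rw [hf.sup x hx, mul_zero]⟩

theorem Adm.ee1 {P a : ℝ} {f : ℝ → ℂ} (hf : Adm P a f) (hP : 1 ≤ P) :
    Adm P (2 * Real.pi / P * a) (fun x => (LP.ee x - 1) * f x) := by
  have hP0 : 0 < P := by linarith
  refine ⟨(ee_meas.sub_const 1).mul hf.meas, fun x => ?_, fun x hx => by
    rw [hf.sup x hx, mul_zero]⟩
  by_cases hx : x ∈ Set.Ioc (0:ℝ) (1 / P)
  · rw [norm_mul]
    have h1 := ee_sub_one x hx.1.le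
    have h2 : 2 * Real.pi * x ≤ 2 * Real.pi / P := by
      have := hx.2
      calc 2 * Real.pi * x ≤ 2 * Real.pi * (1 / P) := by gcongr
        _ = 2 * Real.pi / P := by ring
    exact mul_le_mul (h1.trans h2) (hf.bd x) (norm_nonneg _) (by positivity)
  · rw [hf.sup x hx, mul_zero, norm_zero]
    have := hf.nonneg
    positivity

theorem dz_BB {P a b : ℝ} {f g : ℝ → ℂ} (hf : Adm P a f) (hg : Adm P b g) :
    dz (BB f g) = BB (fun x => (ee x - 1) * f x) (fun x => ee x * g x)
      + BB f (fun x => (ee x - 1) * g x) := by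
  funext k
  have h1 : ∀ {c : ℝ} {h : ℝ → ℂ}, Adm P c h → cf (fun x => (ee x - 1) * h x) k
      = cf (fun x => ee x * h x) k - cf h k := by
    intro c h hh
    rw [← cf_sub hh.ee hh]
    congr 1
    funext x
    ring
  simp only [dz, BB, Pi.add_apply, cf_shift, h1 hf, h1 hg, map_sub]
  ring

theorem BB_bound (P : ℝ) (hP : 1 ≤ P) (m : ℕ) : ∀ (f g : ℝ → ℂ) (a b : ℝ), 0 < a → 0 < b →
    Adm P a f → Adm P b g → Summable (fun k => ‖(dz^[m] (BB f g)) k‖) ∧
    ∑' k, ‖(dz^[m] (BB f g)) k‖ ≤ (4 * Real.pi / P) ^ m * (a * b / P) := by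
  have hP0 : 0 < P := by linarith
  induction m with
  | zero =>
    intro f g a b ha hb hf hg
    obtain ⟨s, hs, hs1⟩ := hf.hasSum hP
    obtain ⟨t, ht, ht1⟩ := hg.hasSum hP
    have h1 : HasSum (fun k => (b / (2 * a)) * ‖cf f k‖ ^ 2 + (a / (2 * b)) * ‖cf g k‖ ^ 2)
      ((b / (2 * a)) * s + (a / (2 * b)) * t) := (hs.mul_left _).add (ht.mul_left _)
    have h2 : ∀ k, ‖(dz^[0] (BB f g)) k‖ ≤
        (b / (2 * a)) * ‖cf f k‖ ^ 2 + (a / (2 * b)) * ‖cf g k‖ ^ 2 := by
      intro k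
      show ‖cf f k * conj (cf g k)‖ ≤ _
      rw [norm_mul, RCLike.norm_conj]
      set x := ‖cf f k‖
      set y := ‖cf g k‖
      have h3 : (b / (2 * a)) * x ^ 2 + (a / (2 * b)) * y ^ 2 - x * y
          = (b * x - a * y) ^ 2 / (2 * a * b) := by
        field_simp
        ring
      have h4 : 0 ≤ (b * x - a * y) ^ 2 / (2 * a * b) := by positivity
      linarith
    have h3 : Summable (fun k => ‖(dz^[0] (BB f g)) k‖) :=
      Summable.of_nonneg_of_le (fun k => norm_nonneg _) h2 h1.summable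
    refine ⟨h3, ?_⟩
    refine (h3.tsum_le_tsum h2 h1.summable).trans ?_
    rw [h1.tsum_eq, pow_zero, one_mul]
    calc b / (2 * a) * s + a / (2 * b) * t ≤ b / (2 * a) * (a ^ 2 / P)
        + a / (2 * b) * (b ^ 2 / P) := by gcongr
      _ = a * b / P := by field_simp; ring
  | succ m ih =>
    intro f g a b ha hb hf hg
    have hpi := Real.pi_pos
    rw [Function.iterate_succ_apply, dz_BB hf hg, dz_iter_add]
    obtain ⟨s1, t1⟩ := ih _ _ _ _ (by positivity) hb (hf.ee1 hP) hg.ee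
    obtain ⟨s2, t2⟩ := ih _ _ _ _ ha (by positivity) hf (hg.ee1 hP)
    set U := dz^[m] (BB (fun x => (ee x - 1) * f x) (fun x => ee x * g x)) with hU
    set V := dz^[m] (BB f (fun x => (ee x - 1) * g x)) with hV
    have h1 : ∀ k, ‖(U + V) k‖ ≤ ‖U k‖ + ‖V k‖ := fun k => norm_add_le _ _
    have h2 : Summable (fun k => ‖U k‖ + ‖V k‖) := s1.add s2
    have h3 : Summable (fun k => ‖(U + V) k‖) :=
      Summable.of_nonneg_of_le (fun k => norm_nonneg _) h1 h2
    refine ⟨h3, (h3.tsum_le_tsum h1 h2).trans ?_⟩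
    rw [s1.tsum_add s2]
    refine (add_le_add t1 t2).trans (le_of_eq ?_)
    rw [pow_succ]
    ring

/-- the function `√P 1_{(0,1/P]}` -/
noncomputable def hh (P : ℝ) : ℝ → ℂ :=
  (Set.Ioc (0:ℝ) (1 / P)).indicator (fun _ => ((Real.sqrt P : ℝ) : ℂ))

theorem hh_adm (P : ℝ) : Adm P (Real.sqrt P) (hh P) := by
  refine ⟨measurable_const.indicator measurableSet_Ioc, fun x => ?_, fun x hx => by
    rw [hh, Set.indicator_of_notMem hx]⟩
  by_cases hx : x ∈ Set.Ioc (0:ℝ) (1 / P)
  · rw [hh, Set.indicator_of_mem hx, Complex.norm_real, Real.norm_eq_abs,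
      abs_of_nonneg (Real.sqrt_nonneg _)]
  · rw [hh, Set.indicator_of_notMem hx, norm_zero]
    exact Real.sqrt_nonneg _

theorem cf_hh_low (D : ℕ) (hD : 1 ≤ D) (k : ℤ) (hk : |k| ≤ D) :
    1 / (28 * (D:ℝ)) ≤ ‖cf (hh (7 * D)) k‖ ^ 2 := by
  have hD0 : (0:ℝ) < D := by exact_mod_cast hD
  set P : ℝ := 7 * D with hP
  have hP0 : 0 < P := by positivity
  have hD1 : (1:ℝ) ≤ D := by exact_mod_cast hD
  have hP1 : 1 / P ≤ 1 := by
    rw [div_le_one hP0, hP]
    linarith
  have hkD : |(k:ℝ)| ≤ D := by exact_mod_cast hk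
  have hsP : 0 < Real.sqrt P := Real.sqrt_pos.2 hP0
  -- real part
  have h1 : (cf (hh P) k).re = ∫ x in Set.Ioc (0:ℝ) (1 / P), Real.sqrt P * Real.cos (2 * Real.pi * k * x) := by
    unfold cf
    rw [intervalIntegral.integral_of_le zero_le_one]
    have hint := (intervalIntegrable_iff_integrableOn_Ioc_of_le zero_le_one).1
      ((hh_adm P).integrable k)
    have h2 := integral_re hint
    simp only [RCLike.re_eq_complex_re] at h2
    rw [← h2]
    have h3 : ∀ x : ℝ, (Complex.exp (-(2 * Real.pi * k * x) * Complex.I) * hh P x).re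
        = (Set.Ioc (0:ℝ) (1 / P)).indicator (fun x => Real.sqrt P * Real.cos (2 * Real.pi * k * x)) x := by
      intro x
      by_cases hx : x ∈ Set.Ioc (0:ℝ) (1 / P)
      · rw [hh, Set.indicator_of_mem hx, Set.indicator_of_mem hx, Complex.re_mul_ofReal]
        have h4 : Complex.exp (-(2 * Real.pi * k * x) * Complex.I)
            = Complex.exp ((-(2 * Real.pi * k * x) : ℝ) * Complex.I) := by
          congr 1
          push_cast
          ring
        rw [h4, Complex.exp_ofReal_mul_I_re, Real.cos_neg]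
        ring
      · rw [hh, Set.indicator_of_notMem hx, Set.indicator_of_notMem hx, mul_zero, Complex.zero_re]
    simp only [h3]
    rw [setIntegral_indicator measurableSet_Ioc]
    congr 2
    apply Set.inter_eq_right.2
    intro x hx
    exact ⟨hx.1, hx.2.trans hP1⟩
  have h5 : Real.sqrt P * (1 / 2) * (1 / P) ≤ (cf (hh P) k).re := by
    rw [h1]
    have h6 : ∫ x in Set.Ioc (0:ℝ) (1 / P), Real.sqrt P * (1 / 2) = Real.sqrt P * (1 / 2) * (1 / P) := by
      rw [setIntegral_const]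
      simp only [Measure.real, Real.volume_Ioc, sub_zero, smul_eq_mul]
      rw [ENNReal.toReal_ofReal (by positivity)]
      ring
    rw [← h6]
    refine setIntegral_mono_on ?_ ?_ measurableSet_Ioc fun x hx => ?_
    · exact integrableOn_const (by simp)
    · exact (by fun_prop : Continuous fun x : ℝ => Real.sqrt P *
        Real.cos (2 * Real.pi * k * x)).integrableOn_Ioc
    · gcongr
      have h7 : |2 * Real.pi * k * x| ≤ 9 / 10 := by
        rw [abs_mul, abs_mul, abs_mul, abs_of_pos Real.pi_pos, abs_of_pos hx.1]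
        have h8 : x ≤ 1 / (7 * D) := hx.2
        calc |2| * Real.pi * |(k:ℝ)| * x ≤ 2 * 3.15 * D * (1 / (7 * D)) := by
              have := Real.pi_lt_d2
              have := hx.1
              rw [abs_two]
              gcongr
          _ = 9 / 10 := by field_simp; norm_num
      have h9 := Real.one_sub_sq_div_two_le_cos (x := 2 * Real.pi * k * x)
      have h10 : (2 * Real.pi * k * x) ^ 2 ≤ (9 / 10) ^ 2 := by
        rw [← sq_abs]
        exact pow_le_pow_left₀ (abs_nonneg _) h7 2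
      linarith
  have h11 : Real.sqrt P * (1 / 2) * (1 / P) ≤ ‖cf (hh P) k‖ :=
    h5.trans ((le_abs_self _).trans (Complex.abs_re_le_norm _))
  have h12 : (Real.sqrt P * (1 / 2) * (1 / P)) ^ 2 = 1 / (28 * (D:ℝ)) := by
    rw [mul_pow, mul_pow, Real.sq_sqrt hP0.le, hP]
    field_simp
    norm_num
  rw [← h12]
  exact pow_le_pow_left₀ (by positivity) h11 2

theorem dz_ofReal (K : ℤ → ℝ) (m : ℕ) : dz^[m] (fun k => ((K k : ℝ) : ℂ))
    = fun k => (((dz^[m] K) k : ℝ) : ℂ) := by
  induction m generalizing K with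
  | zero => rfl
  | succ m ih =>
    rw [Function.iterate_succ_apply, Function.iterate_succ_apply, ← ih]
    congr 1
    funext k
    simp only [dz]
    push_cast
    rfl

/-- the kernel -/
theorem kernel (D : ℕ) (hD : 1 ≤ D) : ∃ K : ℤ → ℝ, (∀ k, 0 ≤ K k) ∧
    (∀ k : ℤ, |k| ≤ D → 1 / (28 * (D:ℝ)) ≤ K k) ∧
    ∀ m : ℕ, Summable (fun k => |(dz^[m] K) k|) ∧ ∑' k, |(dz^[m] K) k| ≤ (2 / D) ^ m := by
  have hD0 : (0:ℝ) < D := by exact_mod_cast hD
  have hD1 : (1:ℝ) ≤ D := by exact_mod_cast hD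
  set P : ℝ := 7 * D with hP
  have hP0 : 0 < P := by positivity
  have hP1 : 1 ≤ P := by rw [hP]; linarith
  set K : ℤ → ℝ := fun k => ‖cf (hh P) k‖ ^ 2 with hK
  refine ⟨K, fun k => by positivity, fun k hk => cf_hh_low D hD k hk, fun m => ?_⟩
  have h1 := BB_bound P hP1 m (hh P) (hh P) _ _ (Real.sqrt_pos.2 hP0) (Real.sqrt_pos.2 hP0)
    (hh_adm P) (hh_adm P)
  have h2 : BB (hh P) (hh P) = fun k => ((K k : ℝ) : ℂ) := by
    funext k
    simp only [BB, hK]
    rw [Complex.mul_conj, Complex.normSq_eq_norm_sq]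
  rw [h2, dz_ofReal] at h1
  simp only [Complex.norm_real, Real.norm_eq_abs] at h1
  refine ⟨h1.1, h1.2.trans ?_⟩
  rw [Real.mul_self_sqrt hP0.le, div_self hP0.ne', mul_one]
  refine pow_le_pow_left₀ (by have := Real.pi_pos; positivity) ?_ m
  rw [hP, div_le_div_iff₀ (by positivity) hD0]
  have := Real.pi_lt_d2
  nlinarith

end Pool.Agent.TH550.LP
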