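import Pool.Agent.TH550.LP.Slow

/-!
Slow functions dominated by `1 / G` (helper550).
-/

set_option autoImplicit false
open scoped ComplexConjugate Topology
open Filter MeasureTheory

namespace Pool.Agent.TH550.LP

section
variable {X : Type} [MeasurableSpace X]

theorem Slow.one {X : Type} (S : X → X) : Slow S 1 0 0 1 := by
  intro m n x
  have h : ∀ m : ℕ, (LP.dl S)^[m + 1] (1 : X → ℝ) = 0 := by
    intro m
    have h1 : LP.dl S (1 : X → ℝ) = 0 := by
      funext x
      simp [LP.dl]
    rw [Function.iterate_succ_apply, h1]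
    induction m with
    | zero => rfl
    | succ m ih =>
      rw [Function.iterate_succ_apply]
      have h2 : LP.dl S (0 : X → ℝ) = 0 := by
        funext x
        simp [LP.dl]
      rw [h2, ih]
  rcases m with _ | m
  · simp
  · rw [h m]
    simp

theorem exp_half_le : Real.exp (1/2) ≤ 2 := by
  have h1 : Real.exp (1/2) ^ 2 = Real.exp 1 := by
    rw [← Real.exp_nat_mul]
    norm_num
  have h2 := Real.exp_one_lt_d9
  have h3 := Real.exp_pos (1/2)
  nlinarith

theorem dl_tendsto {X : Type} (S : X → X) (Ψ : ℕ → X → ℝ) (ψ : X → ℝ)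
    (h : ∀ x, Tendsto (fun J => Ψ J x) atTop (𝓝 (ψ x))) (m : ℕ) :
    ∀ x, Tendsto (fun J => (dl S)^[m] (Ψ J) x) atTop (𝓝 ((dl S)^[m] ψ x)) := by
  induction m with
  | zero => exact h
  | succ m ih =>
    intro x
    simp only [Function.iterate_succ_apply']
    exact (ih (S x)).sub (ih x)

/-- **Slow functions.** -/
theorem slow_exists {μ : Measure X} [IsProbabilityMeasure μ] (S : X ≃ᵐ X)
    (hS : MeasurePreserving S μ μ) (G : X → ℝ) (hGm : Measurable G) (hG0 : ∀ x, 0 ≤ G x)
    (hG2 : Integrable (fun x => G x ^ 2) μ) (ε ρ : ℝ) (hε : 0 < ε) (hρ : 0 < ρ) :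
    ∃ ψ : X → ℝ, Measurable ψ ∧ (∀ x, 0 ≤ ψ x ∧ ψ x ≤ 1) ∧ ∫ x, (1 - ψ x) ∂μ ≤ ρ ∧
      ∃ K : ℝ, 0 ≤ K ∧ ∀ (m : ℕ) (x : X), |(dl S)^[m] ψ x| * G x ≤ K * ε ^ m := by
  set l : ℝ := 56 / 55 with hl
  have hl1 : 1 < l := by rw [hl]; norm_num
  have hl0 : 0 < l := by linarith
  set C : ℝ := 448 / ε + 448 with hC
  have hC0 : 0 < C := by positivity
  set I : ℝ := ∫ x, G x ^ 2 ∂μ with hI
  have hI0 : 0 ≤ I := integral_nonneg fun x => by positivity
  -- the level
  obtain ⟨i0, hi0⟩ : ∃ i0 : ℕ, 56 * (C + 1) * I * (((1/l) ^ 2) ^ i0) ≤ ρ := by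
    have h1 : ((1/l) ^ 2) < 1 := by rw [hl]; norm_num
    have h2 : 0 ≤ ((1/l) ^ 2) := by positivity
    obtain ⟨n, hn⟩ := exists_pow_lt_of_lt_one (show 0 < ρ / (56 * (C + 1) * I + 1) by positivity) h1
    refine ⟨n, ?_⟩
    rw [lt_div_iff₀ (by positivity)] at hn
    have h3 : 0 ≤ ((1/l) ^ 2) ^ n := by positivity
    nlinarith
  set D : ℕ → ℕ := fun i => ⌈C * l ^ i⌉₊ with hD
  have hDl : ∀ i, C * l ^ i ≤ D i := fun i => Nat.le_ceil _
  have hDu : ∀ i, (D i : ℝ) ≤ (C + 1) * l ^ i := by
    intro i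
    have h1 := (Nat.ceil_lt_add_one (show 0 ≤ C * l ^ i by positivity)).le
    have h2 : 1 ≤ l ^ i := one_le_pow₀ hl1.le
    calc (D i : ℝ) ≤ C * l ^ i + 1 := h1
      _ ≤ (C + 1) * l ^ i := by linarith
  have hD1 : ∀ i, 1 ≤ D i := by
    intro i
    have : 0 < D i := Nat.ceil_pos.2 (by positivity)
    omega
  set A : ℕ → Set X := fun i => {x | l ^ (i + i0) ≤ G x} with hA
  have hAm : ∀ i, MeasurableSet (A i) := fun i => measurableSet_le measurable_const hGm
  have hAμ : ∀ i, μ.real (A i) ≤ I * (1/l) ^ (2 * (i + i0)) := by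
    intro i
    have h1 := mul_meas_ge_le_integral_of_nonneg (μ := μ) (f := fun x => G x ^ 2)
      (Eventually.of_forall fun x => by positivity) hG2 (l ^ (2 * (i + i0)))
    have h2 : {x | l ^ (2 * (i + i0)) ≤ G x ^ 2} = A i := by
      ext x
      simp only [hA, Set.mem_ofPred_eq]
      rw [mul_comm, pow_mul]
      exact sq_le_sq₀ (by positivity) (hG0 x)
    rw [h2] at h1
    have h3 : 0 < l ^ (2 * (i + i0)) := by positivity
    calc μ.real (A i) = (l ^ (2 * (i + i0)) * μ.real (A i)) * (1/l) ^ (2 * (i + i0)) := by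
          rw [one_div, inv_pow]
          field_simp
      _ ≤ I * (1/l) ^ (2 * (i + i0)) := by gcongr
  choose q hqm hq01 hqint hqs using fun i => elem S hS (D i) (hD1 i) (hAm i)
  set Ψ : ℕ → X → ℝ := fun J => ∏ i ∈ Finset.range J, q i with hΨ
  have hΨs : ∀ J, Ψ (J + 1) = Ψ J * q J := fun J => Finset.prod_range_succ _ _
  have hΨ01 : ∀ J x, 0 ≤ Ψ J x ∧ Ψ J x ≤ 1 := by
    intro J x
    simp only [hΨ, Finset.prod_apply]
    exact ⟨Finset.prod_nonneg fun i _ => (hq01 i x).1,
      Finset.prod_le_one (fun i _ => (hq01 i x).1) fun i _ => (hq01 i x).2⟩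
  have hΨm : ∀ J, Measurable (Ψ J) := by
    intro J
    induction J with
    | zero => exact measurable_one
    | succ J ih => rw [hΨs]; exact ih.mul (hqm J)
  set η : ℕ → ℝ := fun i => 4 / (D i : ℝ) with hη
  have hη0 : ∀ i, 0 ≤ η i := fun i => by positivity
  have hgeo : HasSum (fun i : ℕ => (1/l) ^ i) 56 := by
    have := hasSum_geometric_of_lt_one (show 0 ≤ 1/l by positivity)
      (show 1/l < 1 by rw [hl]; norm_num)
    convert this using 1
    rw [hl]
    norm_num
  have hηs : ∀ J, ∑ i ∈ Finset.range J, η i ≤ 224 / C := by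
    intro J
    have h1 : ∀ i, η i ≤ (4 / C) * (1/l) ^ i := by
      intro i
      simp only [hη]
      have h2 := hDl i
      have h3 : 0 < l ^ i := by positivity
      calc 4 / (D i : ℝ) ≤ 4 / (C * l ^ i) := by gcongr
        _ = (4 / C) * (1/l) ^ i := by
            rw [one_div, inv_pow]
            field_simp
    calc ∑ i ∈ Finset.range J, η i ≤ ∑ i ∈ Finset.range J, (4 / C) * (1/l) ^ i :=
          Finset.sum_le_sum fun i _ => h1 i
      _ = (4 / C) * ∑ i ∈ Finset.range J, (1/l) ^ i := by rw [Finset.mul_sum]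
      _ ≤ (4 / C) * 56 := by
          gcongr
          exact sum_le_hasSum _ (fun i _ => by positivity) hgeo
      _ = 224 / C := by ring
  have hC1 : 224 / C ≤ 1/2 := by
    rw [div_le_iff₀ hC0, hC]
    have : 0 < 448 / ε := by positivity
    linarith
  have hC2 : 2 * (224 / C) ≤ ε := by
    rw [← mul_div_assoc, div_le_iff₀ hC0, hC]
    have : ε * (448 / ε + 448) = 448 + ε * 448 := by field_simp
    rw [this]
    nlinarith
  set W : ℕ → X → ℝ := fun J => ∏ i ∈ Finset.range J, wt (A i) with hW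
  have hWs : ∀ J, W (J + 1) = W J * wt (A J) := fun J => Finset.prod_range_succ _ _
  have hW0 : ∀ J x, 0 ≤ W J x := by
    intro J x
    simp only [hW, Finset.prod_apply]
    exact Finset.prod_nonneg fun i _ => le_trans (by norm_num) (wt_low (A i) x)
  have hslow : ∀ J, Slow S (Ψ J) (2 * ∑ i ∈ Finset.range J, η i) (∑ i ∈ Finset.range J, η i)
      (W J) := by
    intro J
    induction J with
    | zero =>
      have : Slow S (Ψ 0) 0 0 (W 0) := Slow.one S
      simpa using this
    | succ J ih =>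
      have h1 := Slow.mul ih (hqs J)
      rw [← hΨs, ← hWs] at h1
      have hs0 : 0 ≤ ∑ i ∈ Finset.range J, η i := Finset.sum_nonneg fun i _ => hη0 i
      refine h1.mono (by positivity) ?_ ?_ (hW0 (J + 1))
      · rw [Finset.sum_range_succ, mul_add]
        have h2 : Real.exp (∑ i ∈ Finset.range J, η i) ≤ 2 :=
          (Real.exp_le_exp.2 ((hηs J).trans hC1)).trans exp_half_le
        have h3 := hη0 J
        have : Real.exp (∑ i ∈ Finset.range J, η i) * η J ≤ 2 * η J := by gcongr
        have h4 : (4 / (D J : ℝ)) = η J := rfl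
        rw [h4]
        linarith
      · rw [Finset.sum_range_succ]
  -- the limit
  set ψ : X → ℝ := fun x => ⨅ J, Ψ J x with hψ
  have hanti : ∀ x, Antitone fun J => Ψ J x := by
    intro x
    refine antitone_nat_of_succ_le fun J => ?_
    rw [hΨs, Pi.mul_apply]
    exact mul_le_of_le_one_right (hΨ01 J x).1 (hq01 J x).2
  have hlim : ∀ x, Tendsto (fun J => Ψ J x) atTop (𝓝 (ψ x)) := fun x =>
    tendsto_atTop_ciInf (hanti x) ⟨0, by rintro _ ⟨J, rfl⟩; exact (hΨ01 J x).1⟩
  have hψm : Measurable ψ := measurable_of_tendsto_metrizable hΨm (tendsto_pi_nhds.2 hlim)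
  have hψ01 : ∀ x, 0 ≤ ψ x ∧ ψ x ≤ 1 := fun x =>
    ⟨ge_of_tendsto (hlim x) (Eventually.of_forall fun J => (hΨ01 J x).1),
      le_of_tendsto (hlim x) (Eventually.of_forall fun J => (hΨ01 J x).2)⟩
  refine ⟨ψ, hψm, hψ01, ?_, l ^ i0, by positivity, ?_⟩
  · have hbound : ∀ J, ∫ x, (1 - Ψ J x) ∂μ ≤ ∑ i ∈ Finset.range J, (D i : ℝ) * μ.real (A i) := by
      intro J
      have hi : ∀ J, Integrable (fun x => 1 - Ψ J x) μ := fun J =>
        Integrable.of_bound (measurable_const.sub (hΨm J)).aestronglyMeasurable 1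
          (Eventually.of_forall fun x => by
            rw [Real.norm_eq_abs, abs_of_nonneg (by have := (hΨ01 J x).2; linarith)]
            have := (hΨ01 J x).1
            linarith)
      have hi' : ∀ i, Integrable (fun x => 1 - q i x) μ := fun J =>
        Integrable.of_bound (measurable_const.sub (hqm J)).aestronglyMeasurable 1
          (Eventually.of_forall fun x => by
            rw [Real.norm_eq_abs, abs_of_nonneg (by have := (hq01 J x).2; linarith)]
            have := (hq01 J x).1
            linarith)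
      induction J with
      | zero => simp [hΨ]
      | succ J ih =>
        rw [Finset.sum_range_succ]
        have h1 : ∫ x, (1 - Ψ (J + 1) x) ∂μ ≤ ∫ x, ((1 - Ψ J x) + (1 - q J x)) ∂μ := by
          refine integral_mono (hi _) ((hi J).add (hi' J)) fun x => ?_
          simp only
          rw [hΨs, Pi.mul_apply]
          have h2 := hΨ01 J x
          have h3 := hq01 J x
          nlinarith
        rw [integral_add (hi J) (hi' J)] at h1
        exact h1.trans (add_le_add ih (hqint J))
    have hsum : ∀ J, ∑ i ∈ Finset.range J, (D i : ℝ) * μ.real (A i) ≤ ρ := by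
      intro J
      calc ∑ i ∈ Finset.range J, (D i : ℝ) * μ.real (A i)
          ≤ ∑ i ∈ Finset.range J, ((C + 1) * I * ((1/l) ^ 2) ^ i0) * (1/l) ^ i := by
            refine Finset.sum_le_sum fun i _ => ?_
            calc (D i : ℝ) * μ.real (A i) ≤ ((C + 1) * l ^ i) * (I * (1/l) ^ (2 * (i + i0))) := by
                  have := hDu i
                  have := hAμ i
                  gcongr
              _ = ((C + 1) * I * ((1/l) ^ 2) ^ i0) * (1/l) ^ i * (l ^ i * (1/l) ^ i) := by
                  rw [mul_add, pow_add, pow_mul, ← pow_mul (1/l) 2 i0]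
                  ring
              _ = _ := by
                  rw [← mul_pow, mul_one_div_cancel hl0.ne', one_pow, mul_one]
        _ = ((C + 1) * I * ((1/l) ^ 2) ^ i0) * ∑ i ∈ Finset.range J, (1/l) ^ i := by
            rw [Finset.mul_sum]
        _ ≤ ((C + 1) * I * ((1/l) ^ 2) ^ i0) * 56 := by
            gcongr
            exact sum_le_hasSum _ (fun i _ => by positivity) hgeo
        _ = 56 * (C + 1) * I * (((1/l) ^ 2) ^ i0) := by ring
        _ ≤ ρ := hi0
    have hconv : Tendsto (fun J => ∫ x, (1 - Ψ J x) ∂μ) atTop (𝓝 (∫ x, (1 - ψ x) ∂μ)) := by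
      refine tendsto_integral_of_dominated_convergence (fun _ => (1:ℝ))
        (fun J => (measurable_const.sub (hΨm J)).aestronglyMeasurable) (integrable_const _)
        (fun J => Eventually.of_forall fun x => ?_) (Eventually.of_forall fun x => ?_)
      · rw [Real.norm_eq_abs, abs_of_nonneg (by have := (hΨ01 J x).2; linarith)]
        have := (hΨ01 J x).1
        linarith
      · exact (hlim x).const_sub 1
    exact le_of_tendsto hconv (Eventually.of_forall fun J => (hbound J).trans (hsum J))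
  · intro m x
    have hex : ∃ N : ℕ, G x < l ^ (N + i0) := by
      obtain ⟨N, hN⟩ := pow_unbounded_of_one_lt (G x) hl1
      exact ⟨N, hN.trans_le (pow_le_pow_right₀ hl1.le (by omega))⟩
    classical
    obtain ⟨N, hN, hNmin⟩ : ∃ N : ℕ, G x < l ^ (N + i0) ∧ ∀ i < N, l ^ (i + i0) ≤ G x :=
      ⟨Nat.find hex, Nat.find_spec hex, fun i hi => not_lt.1 (Nat.find_min hex hi)⟩
    have hWN : W N x = (1/l) ^ N := by
      simp only [hW, Finset.prod_apply]
      rw [Finset.prod_congr rfl (fun i hi => wt_mem (show x ∈ A i from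
          hNmin i (Finset.mem_range.1 hi))), Finset.prod_const, Finset.card_range, hl]
      norm_num
    have hWJ : ∀ J, N ≤ J → W J x ≤ (1/l) ^ N := by
      intro J hJ
      induction J, hJ using Nat.le_induction with
      | base => exact hWN.le
      | succ J _ ih =>
        rw [hWs, Pi.mul_apply]
        exact (mul_le_of_le_one_right (hW0 J x) (wt_le _ _)).trans ih
    have hfin : ∀ J, N ≤ J → |(dl S)^[m] (Ψ J) x| * G x ≤ l ^ i0 * ε ^ m := by
      intro J hJ
      have h1 := hslow J m 0 x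
      simp only [Function.iterate_zero, id_eq, Nat.cast_zero, mul_zero, Real.exp_zero,
        mul_one] at h1
      have hs0 : 0 ≤ 2 * ∑ i ∈ Finset.range J, η i :=
        mul_nonneg (by norm_num) (Finset.sum_nonneg fun i _ => hη0 i)
      have h2 : (2 * ∑ i ∈ Finset.range J, η i) ≤ ε :=
        (mul_le_mul_of_nonneg_left (hηs J) (by norm_num)).trans hC2
      calc |(dl S)^[m] (Ψ J) x| * G x
          ≤ ((2 * ∑ i ∈ Finset.range J, η i) ^ m * W J x) * l ^ (N + i0) := by
            have := hG0 x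
            have := hW0 J x
            gcongr
        _ ≤ (ε ^ m * (1/l) ^ N) * l ^ (N + i0) := by
            have := hWJ J hJ
            have := hW0 J x
            gcongr
        _ = l ^ i0 * ε ^ m * ((1/l) ^ N * l ^ N) := by
            rw [pow_add]; ring
        _ = l ^ i0 * ε ^ m := by
            rw [← mul_pow, one_div_mul_cancel hl0.ne', one_pow, mul_one]
    have h3 := ((dl_tendsto S Ψ ψ hlim m x).abs).mul_const (G x)
    exact le_of_tendsto h3 (eventually_atTop.2 ⟨N, hfin⟩)

end

end Pool.Agent.TH550.LP
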