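import Pool.Agent.H270R3.CT.RW

/-!
Sequences of vectors with prescribed growth from a nonscalar strong limit (helper550; adapted from the
file `Pool.Agent.H417B.C12H`).
-/

set_option autoImplicit false
open scoped ComplexConjugate InnerProductSpace Topology
open Filter MeasureTheory NormedSpace

namespace Pool.Agent.TH550.LP
open Pool.Agent.H712R5.BO Pool.Agent.H417B Pool.Agent.H270R3.CT

/-- the data -/
def GData {H : Type} [NormedAddCommGroup H] [InnerProductSpace ℂ H] [CompleteSpace H]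
    (T : H →L[ℂ] H) : Prop :=
  ∃ (k : ℕ → ℕ) (v g : ℕ → H) (f h : H) (a b C : ℝ), StrictMono k ∧ a < b ∧ f ≠ 0 ∧ h ≠ 0 ∧
    Tendsto v atTop (𝓝 f) ∧ Tendsto g atTop (𝓝 h) ∧
    (∀ i, ‖exp ((k i : ℂ) • T) (v i)‖ ≤ C * Real.exp (a * k i)) ∧
    (∀ i, ‖exp ((k i : ℂ) • (-star T)) (g i)‖ ≤ C * Real.exp (-b * k i))

theorem dual_est {H : Type} [NormedAddCommGroup H] [InnerProductSpace ℂ H] [CompleteSpace H]
    (T : H →L[ℂ] H) (k : ℕ) (P : H →L[ℂ] H) (hP : IsSelfAdjoint P) (r : ℝ) (hr : 0 ≤ r)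
    (hest : ∀ w, ‖P w‖ ≤ r * ‖ex ((k : ℕ) : ℂ) T w‖) (u0 : H) :
    ‖exp ((k : ℂ) • (-star T)) (P u0)‖ ≤ r * ‖u0‖ := by
  set w := exp ((k : ℂ) • (-star T)) (P u0) with hw
  set Q : H →L[ℂ] H := exp (-((k : ℂ) • T)) with hQ
  let _ : NormedAlgebra ℚ (H →L[ℂ] H) := .restrictScalars ℚ ℂ (H →L[ℂ] H)
  have hstar : exp ((k : ℂ) • (-star T)) = star Q := by
    rw [hQ, star_exp, star_neg, star_smul]
    congr 1
    rw [smul_neg, Complex.star_def, Complex.conj_natCast]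
  have hSQ : ex ((k : ℕ) : ℂ) T * Q = 1 := by
    rw [hQ]
    show exp (((k : ℕ) : ℂ) • T) * exp (-((k : ℂ) • T)) = 1
    rw [← exp_add_of_commute (Commute.refl _).neg_right, add_neg_cancel, exp_zero]
  have had : ∀ (A : H →L[ℂ] H) (x y : H), ⟪star A x, y⟫_ℂ = ⟪x, A y⟫_ℂ := fun A x y => by
    rw [ContinuousLinearMap.star_eq_adjoint, ContinuousLinearMap.adjoint_inner_left]
  have hw' : w = star Q (P u0) := by rw [hw, hstar]
  have e1 : ‖w‖ ^ 2 ≤ ‖u0‖ * (r * ‖w‖) := by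
    have h1 : (⟪w, w⟫_ℂ) = ⟪u0, P (Q w)⟫_ℂ := by
      calc (⟪w, w⟫_ℂ) = ⟪star Q (P u0), w⟫_ℂ := congrArg (fun t => ⟪t, w⟫_ℂ) hw'
        _ = ⟪P u0, Q w⟫_ℂ := had _ _ _
        _ = ⟪star P u0, Q w⟫_ℂ := by rw [hP.star_eq]
        _ = _ := had _ _ _
    have h2 : ‖w‖ ^ 2 = ‖(⟪w, w⟫_ℂ)‖ := by
      rw [inner_self_eq_norm_sq_to_K]
      simp
    rw [h2, h1]
    refine (norm_inner_le_norm _ _).trans ?_
    gcongr
    refine (hest (Q w)).trans (le_of_eq ?_)
    congr 2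
    have := congrArg (fun A : H →L[ℂ] H => A w) hSQ
    simpa [mul_apply_eq_comp] using this
  by_cases hw0 : ‖w‖ = 0
  · rw [hw0]; positivity
  · have hwp : 0 < ‖w‖ := lt_of_le_of_ne (norm_nonneg _) (Ne.symm hw0)
    have : ‖w‖ * ‖w‖ ≤ (r * ‖u0‖) * ‖w‖ := by
      nlinarith
    exact le_of_mul_le_mul_right this hwp

theorem gdata {H : Type} [NormedAddCommGroup H] [InnerProductSpace ℂ H] [CompleteSpace H]
    (T : H →L[ℂ] H) (k : ℕ → ℕ) (hk : StrictMono k) (hk1 : ∀ i, 1 ≤ k i) (X : H →L[ℂ] H)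
    (hlim : ∀ v, Tendsto (fun i => ((1/(k i : ℝ)) • Lg (ex ((k i : ℕ) : ℂ) T)) v) atTop (𝓝 (X v)))
    (hns : ¬ ∃ c : ℂ, X = c • 1) : GData T := by
  set Y : ℕ → (H →L[ℂ] H) := fun i => (1/(k i : ℝ)) • Lg (ex ((k i : ℕ) : ℂ) T) with hY
  have hYs : ∀ i, IsSelfAdjoint (Y i) := fun i => (C12_exp t_B4v T (k i) (hk1 i)).1
  have hYn : ∀ i, ‖Y i‖ ≤ 2 * ‖T‖ := fun i => (C12_exp t_B4v T (k i) (hk1 i)).2.1
  obtain ⟨hX, hcfc⟩ := t_C10 H Y X (2 * ‖T‖) hYn hYs hlim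
  obtain ⟨s1, hs1, s2, hs2, hlt⟩ := C12_spec X hX hns
  set a : ℝ := (2 * s1 + s2) / 3 with ha
  set b : ℝ := (s1 + 2 * s2) / 3 with hb
  have hab : a < b := by rw [ha, hb]; linarith
  set φ : ℝ → ℝ := fun x => min (max (a - x) 0) 1 with hφ
  set χ : ℝ → ℝ := fun x => min (max (x - b) 0) 1 with hχ
  have hφc : Continuous φ := by rw [hφ]; fun_prop
  have hχc : Continuous χ := by rw [hχ]; fun_prop
  have hχ01 : ∀ x, 0 ≤ χ x ∧ χ x ≤ 1 := fun x =>
    ⟨le_min (le_max_right _ _) zero_le_one, min_le_right _ _⟩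
  have hφ01 : ∀ x, 0 ≤ φ x ∧ φ x ≤ 1 := fun x =>
    ⟨le_min (le_max_right _ _) zero_le_one, min_le_right _ _⟩
  have hφa : ∀ x, a ≤ x → φ x = 0 := fun x hx => by
    show min (max (a - x) 0) 1 = 0
    rw [max_eq_right (by linarith)]
    exact min_eq_left zero_le_one
  have hχb : ∀ x, x ≤ b → χ x = 0 := fun x hx => by
    show min (max (x - b) 0) 1 = 0
    rw [max_eq_right (by linarith)]
    exact min_eq_left zero_le_one
  have hφX : cfc φ X ≠ 0 := by
    refine C12_ne X hX φ hφc hs1 ?_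
    have : 0 < φ s1 := lt_min (lt_max_of_lt_left (by rw [ha]; linarith)) zero_lt_one
    exact this.ne'
  have hχX : cfc χ X ≠ 0 := by
    refine C12_ne X hX χ hχc hs2 ?_
    have : 0 < χ s2 := lt_min (lt_max_of_lt_left (by rw [hb]; linarith)) zero_lt_one
    exact this.ne'
  obtain ⟨v0, hv0⟩ : ∃ v, cfc φ X v ≠ 0 := by
    by_contra hcon
    push Not at hcon
    exact hφX (ContinuousLinearMap.ext fun v => by rw [hcon v]; rfl)
  obtain ⟨u0, hu0⟩ : ∃ v, cfc χ X v ≠ 0 := by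
    by_contra hcon
    push Not at hcon
    exact hχX (ContinuousLinearMap.ext fun v => by rw [hcon v]; rfl)
  have hφn : ∀ i, ‖cfc φ (Y i)‖ ≤ 1 := by
    intro i
    refine norm_cfc_le zero_le_one fun x _ => ?_
    rw [Real.norm_eq_abs, abs_of_nonneg (hφ01 x).1]
    exact (hφ01 x).2
  set S : ℕ → (H →L[ℂ] H) := fun i => ex ((k i : ℕ) : ℂ) T with hS
  have hSS : ∀ i, star (S i) * S i = exp ((k i:ℝ) • Y i) := fun i =>
    (C12_exp t_B4v T (k i) (hk1 i)).2.2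
  -- first growth estimate
  have s1 : ∀ i, ‖S i (cfc φ (Y i) v0)‖ ≤ Real.exp (k i * a / 2) * ‖v0‖ := by
    intro i
    set u := cfc φ (Y i) v0 with hu
    have hk0 : (0:ℝ) ≤ (k i:ℝ) := Nat.cast_nonneg _
    rw [C11_norm (S i) (Y i) (hYs i) (k i) (hSS i) u]
    have hg : cfc (fun x : ℝ => Real.exp ((k i:ℝ) * x / 2)) (Y i) * cfc φ (Y i)
        = cfc (fun x : ℝ => min (Real.exp ((k i:ℝ) * x / 2)) (Real.exp (k i * a / 2))) (Y i)
          * cfc φ (Y i) := by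
      rw [← cfc_mul (fun x : ℝ => Real.exp ((k i:ℝ) * x / 2)) φ (Y i),
        ← cfc_mul (fun x : ℝ => min (Real.exp ((k i:ℝ) * x / 2)) (Real.exp (k i * a / 2))) φ (Y i)]
      congr 1
      funext x
      rcases le_total a x with h | h
      · rw [hφa x h, mul_zero, mul_zero]
      · rw [min_eq_left]
        apply Real.exp_le_exp.mpr
        have := mul_le_mul_of_nonneg_left h hk0
        linarith
    have h2 : cfc (fun x : ℝ => Real.exp ((k i:ℝ) * x / 2)) (Y i) u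
        = cfc (fun x : ℝ => min (Real.exp ((k i:ℝ) * x / 2)) (Real.exp (k i * a / 2))) (Y i) u := by
      have := congrArg (fun A : H →L[ℂ] H => A v0) hg
      simpa [hu, mul_apply_eq_comp] using this
    rw [h2]
    refine (ContinuousLinearMap.le_opNorm _ _).trans ?_
    have h3 : ‖u‖ ≤ ‖v0‖ := by
      refine ((cfc φ (Y i)).le_opNorm v0).trans ?_
      exact mul_le_of_le_one_left (norm_nonneg _) (hφn i)
    refine mul_le_mul ?_ h3 (norm_nonneg _) (Real.exp_pos _).le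
    refine norm_cfc_le (Real.exp_pos _).le (fun x _ => ?_)
    rw [Real.norm_eq_abs, abs_of_nonneg (le_min (Real.exp_pos _).le (Real.exp_pos _).le)]
    exact min_le_right _ _
  -- second growth estimate
  have s2 : ∀ i (w : H), ‖cfc χ (Y i) w‖ ≤ Real.exp (-(k i * b / 2)) * ‖S i w‖ := by
    intro i w
    have hk0 : (0:ℝ) ≤ (k i:ℝ) := Nat.cast_nonneg _
    rw [C11_norm (S i) (Y i) (hYs i) (k i) (hSS i) w]
    have hg : cfc χ (Y i) = cfc (fun x : ℝ => χ x * Real.exp (-((k i:ℝ) * x / 2))) (Y i) *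
        cfc (fun x : ℝ => Real.exp ((k i:ℝ) * x / 2)) (Y i) := by
      rw [← cfc_mul (fun x : ℝ => χ x * Real.exp (-((k i:ℝ) * x / 2)))
        (fun x : ℝ => Real.exp ((k i:ℝ) * x / 2)) (Y i)]
      congr 1
      funext x
      rw [mul_assoc, ← Real.exp_add, neg_add_cancel, Real.exp_zero, mul_one]
    rw [hg, mul_apply_eq_comp]
    refine (ContinuousLinearMap.le_opNorm _ _).trans ?_
    refine mul_le_mul_of_nonneg_right ?_ (norm_nonneg _)
    refine norm_cfc_le (Real.exp_pos _).le (fun x _ => ?_)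
    rw [Real.norm_eq_abs, abs_of_nonneg (mul_nonneg (hχ01 x).1 (Real.exp_pos _).le)]
    rcases le_total x b with h | h
    · rw [hχb x h, zero_mul]
      exact (Real.exp_pos _).le
    · calc χ x * Real.exp (-((k i:ℝ) * x / 2)) ≤ 1 * Real.exp (-((k i:ℝ) * x / 2)) :=
            mul_le_mul_of_nonneg_right (hχ01 x).2 (Real.exp_pos _).le
        _ ≤ Real.exp (-(k i * b / 2)) := by
            rw [one_mul]
            apply Real.exp_le_exp.mpr
            have := mul_le_mul_of_nonneg_left h hk0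
            linarith
  have s3 : ∀ i, ‖exp ((k i : ℂ) • (-star T)) (cfc χ (Y i) u0)‖ ≤
      Real.exp (-(k i * b / 2)) * ‖u0‖ := fun i =>
    dual_est T (k i) (cfc χ (Y i)) (cfc_predicate χ (Y i)) _ (Real.exp_pos _).le (s2 i) u0
  refine ⟨k, fun i => cfc φ (Y i) v0, fun i => cfc χ (Y i) u0, cfc φ X v0, cfc χ X u0, a / 2, b / 2,
    ‖v0‖ + ‖u0‖, hk, by linarith, hv0, hu0, hcfc φ hφc v0, hcfc χ hχc u0, fun i => ?_, fun i => ?_⟩
  · refine (s1 i).trans ?_
    rw [mul_comm]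
    have : (k i : ℝ) * a / 2 = a / 2 * k i := by ring
    rw [this]
    gcongr
    linarith [norm_nonneg u0]
  · refine (s3 i).trans ?_
    rw [mul_comm]
    have : -((k i : ℝ) * b / 2) = -(b / 2) * k i := by ring
    rw [this]
    gcongr
    linarith [norm_nonneg v0]

end Pool.Agent.TH550.LP
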