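import Pool.Agent.TH550.LP.Ker

/-!
Slow functions along the orbits of an invertible measure-preserving map (helper550).
-/

set_option autoImplicit false
open scoped ComplexConjugate Topology
open Filter MeasureTheory

namespace Pool.Agent.TH550.LP

/-- the difference operator along the map `S` -/
def dl {X : Type} (S : X → X) (h : X → ℝ) : X → ℝ := fun x => h (S x) - h x

theorem dl_add {X : Type} (S : X → X) (f g : X → ℝ) : dl S (f + g) = dl S f + dl S g := by
  funext x
  simp only [dl, Pi.add_apply]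
  ring

theorem dl_iter_add {X : Type} (S : X → X) (m : ℕ) (f g : X → ℝ) :
    (dl S)^[m] (f + g) = (dl S)^[m] f + (dl S)^[m] g := by
  induction m generalizing f g with
  | zero => rfl
  | succ m ih => rw [Function.iterate_succ_apply, Function.iterate_succ_apply,
      Function.iterate_succ_apply, dl_add, ih]

theorem dl_mul {X : Type} (S : X → X) (f g : X → ℝ) :
    dl S (f * g) = dl S f * g + (f ∘ S) * dl S g := by
  funext x
  simp only [dl, Pi.add_apply, Pi.mul_apply, Function.comp_apply]
  ring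

theorem dl_comp {X : Type} (S : X → X) (f : X → ℝ) : dl S (f ∘ S) = dl S f ∘ S := rfl

theorem dl_iter_comp {X : Type} (S : X → X) (m : ℕ) (f : X → ℝ) :
    (dl S)^[m] (f ∘ S) = (dl S)^[m] f ∘ S := by
  induction m generalizing f with
  | zero => rfl
  | succ m ih => rw [Function.iterate_succ_apply, Function.iterate_succ_apply, dl_comp, ih]

/-- quantitative slowness -/
def Slow {X : Type} (S : X → X) (q : X → ℝ) (a b : ℝ) (w : X → ℝ) : Prop :=
  ∀ (m n : ℕ) (x : X), |(dl S)^[m] q (S^[n] x)| ≤ a ^ m * Real.exp (b * n) * w x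

theorem Slow.dl {X : Type} {S : X → X} {q : X → ℝ} {a b : ℝ} {w : X → ℝ}
    (h : Slow S q a b w) : Slow S (LP.dl S q) a b (fun x => a * w x) := by
  intro m n x
  have := h (m + 1) n x
  rw [Function.iterate_succ_apply] at this
  refine this.trans (le_of_eq ?_)
  rw [pow_succ]
  ring

theorem Slow.comp {X : Type} {S : X → X} {q : X → ℝ} {a b : ℝ} {w : X → ℝ}
    (h : Slow S q a b w) : Slow S (q ∘ S) a b (fun x => Real.exp b * w x) := by
  intro m n x
  have := h m (n + 1) x
  rw [dl_iter_comp, Function.comp_apply, ← Function.iterate_succ_apply' S]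
  refine this.trans (le_of_eq ?_)
  push_cast
  rw [mul_add, Real.exp_add, mul_one]
  ring

theorem Slow.mul {X : Type} {S : X → X} {a1 b1 a2 b2 : ℝ}
    {q1 q2 : X → ℝ} {w1 w2 : X → ℝ} (h1 : Slow S q1 a1 b1 w1) (h2 : Slow S q2 a2 b2 w2) :
    Slow S (q1 * q2) (a1 + Real.exp b1 * a2) (b1 + b2) (w1 * w2) := by
  intro m
  induction m generalizing q1 q2 w1 w2 with
  | zero =>
    intro n x
    have e1 := h1 0 n x
    have e2 := h2 0 n x
    rw [Function.iterate_zero, id_eq, pow_zero, one_mul] at e1 e2 ⊢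
    rw [Pi.mul_apply, abs_mul, Pi.mul_apply]
    calc |q1 (S^[n] x)| * |q2 (S^[n] x)| ≤ (Real.exp (b1 * n) * w1 x) * (Real.exp (b2 * n) * w2 x) :=
          mul_le_mul e1 e2 (abs_nonneg _) ((abs_nonneg _).trans e1)
      _ = _ := by
          rw [add_mul, Real.exp_add]
          ring
  | succ m ih =>
    intro n x
    rw [Function.iterate_succ_apply, dl_mul, dl_iter_add, Pi.add_apply]
    have e1 := ih h1.dl h2 n x
    have e2 := ih h1.comp h2.dl n x
    refine (abs_add_le _ _).trans ((add_le_add e1 e2).trans (le_of_eq ?_))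
    simp only [Pi.mul_apply]
    rw [pow_succ]
    ring

theorem Slow.mono {X : Type} {S : X → X} {q : X → ℝ} {a b a' b' : ℝ} {w : X → ℝ}
    (h : Slow S q a b w) (ha : 0 ≤ a) (haa : a ≤ a') (hbb : b ≤ b') (hw : ∀ x, 0 ≤ w x) :
    Slow S q a' b' w := by
  intro m n x
  refine (h m n x).trans ?_
  have := hw x
  have ha' := ha.trans haa
  gcongr

/-! ### the averages -/

section
variable {X : Type} [MeasurableSpace X]

/-- integer powers of `S` -/
def sz (S : X ≃ᵐ X) (k : ℤ) (x : X) : X := ((S.toEquiv : Equiv.Perm X) ^ k) x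

theorem sz_add_one (S : X ≃ᵐ X) (k : ℤ) (x : X) : sz S (k + 1) x = sz S k (S x) := by
  unfold sz
  rw [zpow_add_one]
  rfl

theorem sz_zero (S : X ≃ᵐ X) (x : X) : sz S 0 x = x := rfl

theorem sz_meas (S : X ≃ᵐ X) (k : ℤ) : Measurable (sz S k) := by
  induction k using Int.induction_on with
  | zero => exact measurable_id
  | succ n ih =>
    have : sz S (n + 1) = sz S n ∘ S := by funext x; exact sz_add_one S n x
    rw [this]
    exact ih.comp S.measurable
  | pred n ih =>
    have : sz S (-n - 1) = sz S (-n) ∘ S.symm := by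
      funext x
      have := sz_add_one S (-n - 1) (S.symm x)
      rw [S.apply_symm_apply, sub_add_cancel] at this
      exact this.symm
    rw [this]
    exact ih.comp S.symm.measurable

theorem sz_mp {μ : Measure X} (S : X ≃ᵐ X) (hS : MeasurePreserving S μ μ) (k : ℤ) :
    MeasurePreserving (sz S k) μ μ := by
  induction k using Int.induction_on with
  | zero => exact MeasurePreserving.id μ
  | succ n ih =>
    have : sz S (n + 1) = sz S n ∘ S := by funext x; exact sz_add_one S n x
    rw [this]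
    exact ih.comp hS
  | pred n ih =>
    have : sz S (-n - 1) = sz S (-n) ∘ S.symm := by
      funext x
      have := sz_add_one S (-n - 1) (S.symm x)
      rw [S.apply_symm_apply, sub_add_cancel] at this
      exact this.symm
    rw [this]
    exact ih.comp (hS.symm S)

/-- the indicator of the points whose orbit meets `A` before time `D` -/
noncomputable def fat (S : X ≃ᵐ X) (D : ℕ) (A : Set X) : X → ℝ :=
  (⋃ i ∈ Finset.range D, (S^[i]) ⁻¹' A).indicator fun _ => 1

theorem fat_meas (S : X ≃ᵐ X) (D : ℕ) {A : Set X} (hA : MeasurableSet A) :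
    Measurable (fat S D A) :=
  measurable_const.indicator (Finset.measurableSet_biUnion _ fun i _ =>
    (S.measurable.iterate i) hA)

theorem fat_nonneg (S : X ≃ᵐ X) (D : ℕ) (A : Set X) (x : X) : 0 ≤ fat S D A x :=
  Set.indicator_nonneg (fun _ _ => zero_le_one) x

theorem fat_le_one (S : X ≃ᵐ X) (D : ℕ) (A : Set X) (x : X) : fat S D A x ≤ 1 :=
  Set.indicator_le_self' (fun _ _ => zero_le_one) x

theorem fat_eq_one (S : X ≃ᵐ X) (D : ℕ) (A : Set X) (x : X) (i : ℕ) (hi : i < D)
    (h : S^[i] x ∈ A) : fat S D A x = 1 := by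
  rw [fat, Set.indicator_of_mem]
  rw [Set.mem_iUnion₂]
  exact ⟨i, Finset.mem_range.2 hi, h⟩

theorem fat_int {μ : Measure X} [IsProbabilityMeasure μ] (S : X ≃ᵐ X)
    (hS : MeasurePreserving S μ μ) (D : ℕ) {A : Set X} (hA : MeasurableSet A) :
    ∫ x, fat S D A x ∂μ ≤ D * μ.real A := by
  unfold fat
  have hm : MeasurableSet (⋃ i ∈ Finset.range D, (S^[i]) ⁻¹' A) :=
    Finset.measurableSet_biUnion _ fun i _ => (S.measurable.iterate i) hA
  rw [integral_indicator hm, setIntegral_const, smul_eq_mul, mul_one]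
  refine (measureReal_biUnion_finset_le _ _).trans ?_
  have : ∀ i ∈ Finset.range D, μ.real ((S^[i]) ⁻¹' A) = μ.real A := by
    intro i _
    rw [Measure.real, (hS.iterate i).measure_preimage hA.nullMeasurableSet]
    rfl
  rw [Finset.sum_congr rfl this, Finset.sum_const, Finset.card_range, nsmul_eq_mul]

/-- the average with kernel `K` -/
noncomputable def av (S : X ≃ᵐ X) (K : ℤ → ℝ) (a : X → ℝ) (x : X) : ℝ :=
  ∑' k, K k * a (sz S k x)

theorem av_summable (S : X ≃ᵐ X) {K : ℤ → ℝ} (hK : Summable fun k => |K k|) {a : X → ℝ}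
    (ha : ∀ x, 0 ≤ a x ∧ a x ≤ 1) (x : X) : Summable fun k => K k * a (sz S k x) := by
  refine Summable.of_norm_bounded hK fun k => ?_
  rw [Real.norm_eq_abs, abs_mul, abs_of_nonneg (ha _).1]
  exact mul_le_of_le_one_right (abs_nonneg _) (ha _).2

theorem av_bound (S : X ≃ᵐ X) {K : ℤ → ℝ} (hK : Summable fun k => |K k|) {a : X → ℝ}
    (ha : ∀ x, 0 ≤ a x ∧ a x ≤ 1) (x : X) : |av S K a x| ≤ ∑' k, |K k| := by
  unfold av
  rw [← Real.norm_eq_abs]
  refine tsum_of_norm_bounded hK.hasSum fun k => ?_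
  rw [Real.norm_eq_abs, abs_mul, abs_of_nonneg (ha _).1]
  exact mul_le_of_le_one_right (abs_nonneg _) (ha _).2

theorem av_dl (S : X ≃ᵐ X) {K : ℤ → ℝ} (hK : Summable fun k => |K k|) {a : X → ℝ}
    (ha : ∀ x, 0 ≤ a x ∧ a x ≤ 1) : dl S (av S K a) = av S (dz K) a := by
  funext x
  unfold dl av
  have h1 : Summable fun k => |K (k - 1)| :=
    (Equiv.subRight (1:ℤ)).summable_iff.2 hK
  have h2 : ∑' k, K k * a (sz S k (S x)) = ∑' k, K (k - 1) * a (sz S k x) := by
    rw [← (Equiv.addRight (1:ℤ)).tsum_eq (fun k => K (k - 1) * a (sz S k x))]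
    refine tsum_congr fun k => ?_
    simp only [Equiv.coe_addRight, add_sub_cancel_right]
    rw [sz_add_one]
  rw [h2, ← (av_summable S h1 ha x).tsum_sub (av_summable S hK ha x)]
  refine tsum_congr fun k => ?_
  unfold dz
  ring

theorem av_dl_iter (S : X ≃ᵐ X) {K : ℤ → ℝ} (hK : ∀ m, Summable fun k => |(dz^[m] K) k|)
    {a : X → ℝ} (ha : ∀ x, 0 ≤ a x ∧ a x ≤ 1) (m : ℕ) :
    (dl S)^[m] (av S K a) = av S (dz^[m] K) a := by
  induction m with
  | zero => rfl
  | succ m ih => rw [Function.iterate_succ_apply', ih, av_dl S (hK m) ha,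
      Function.iterate_succ_apply']

theorem av_meas (S : X ≃ᵐ X) {K : ℤ → ℝ} {a : X → ℝ} (ham : Measurable a) :
    Measurable (av S K a) := by
  unfold av
  exact Measurable.tsum fun k => (ham.comp (sz_meas S k)).const_mul _

theorem av_int {μ : Measure X} [IsProbabilityMeasure μ] (S : X ≃ᵐ X)
    (hS : MeasurePreserving S μ μ) {K : ℤ → ℝ} (hK : Summable fun k => |K k|)
    (hK0 : ∀ k, 0 ≤ K k) (hK1 : ∑' k, |K k| ≤ 1) {a : X → ℝ} (ham : Measurable a)
    (ha : ∀ x, 0 ≤ a x ∧ a x ≤ 1) : ∫ x, av S K a x ∂μ ≤ ∫ x, a x ∂μ := by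
  unfold av
  have hai : Integrable a μ := Integrable.of_bound ham.aestronglyMeasurable 1
    (Eventually.of_forall fun x => by
      rw [Real.norm_eq_abs, abs_of_nonneg (ha x).1]; exact (ha x).2)
  have h1 : ∀ k, ∫ x, a (sz S k x) ∂μ = ∫ x, a x ∂μ := by
    intro k
    have h2 := (sz_mp S hS k).map_eq
    conv_rhs => rw [← h2]
    rw [integral_map (sz_meas S k).aemeasurable ham.aestronglyMeasurable]
  have hint : ∀ k, Integrable (fun x => K k * a (sz S k x)) μ := fun k =>
    ((sz_mp S hS k).integrable_comp_of_integrable hai).const_mul _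
  have hI0 : 0 ≤ ∫ x, a x ∂μ := integral_nonneg fun x => (ha x).1
  have h3 : ∀ k, ∫ x, ‖K k * a (sz S k x)‖ ∂μ = |K k| * ∫ x, a x ∂μ := by
    intro k
    have : ∀ x, ‖K k * a (sz S k x)‖ = |K k| * a (sz S k x) := by
      intro x
      rw [Real.norm_eq_abs, abs_mul, abs_of_nonneg (ha _).1]
    simp only [this]
    rw [integral_const_mul, h1]
  rw [← integral_tsum_of_summable_integral_norm hint (by
    simp only [h3]
    exact hK.mul_right _)]
  have h4 : ∀ k, ∫ x, K k * a (sz S k x) ∂μ = |K k| * ∫ x, a x ∂μ := by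
    intro k
    rw [integral_const_mul, h1, abs_of_nonneg (hK0 k)]
  simp only [h4]
  rw [tsum_mul_right]
  exact mul_le_of_le_one_left hI0 hK1

/-- the weight `55/56` on `A`, `1` off `A` -/
noncomputable def wt {X : Type} (A : Set X) (x : X) : ℝ := 1 - A.indicator (fun _ => (1/56:ℝ)) x

theorem wt_mem {X : Type} {A : Set X} {x : X} (h : x ∈ A) : wt A x = 55 / 56 := by
  rw [wt, Set.indicator_of_mem h]; norm_num

theorem wt_not {X : Type} {A : Set X} {x : X} (h : x ∉ A) : wt A x = 1 := by
  rw [wt, Set.indicator_of_notMem h]; norm_num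

theorem wt_low {X : Type} (A : Set X) (x : X) : 55 / 56 ≤ wt A x := by
  by_cases h : x ∈ A
  · rw [wt_mem h]
  · rw [wt_not h]; norm_num

theorem wt_le {X : Type} (A : Set X) (x : X) : wt A x ≤ 1 := by
  by_cases h : x ∈ A
  · rw [wt_mem h]; norm_num
  · rw [wt_not h]

/-- the elementary slow function -/
theorem elem {μ : Measure X} [IsProbabilityMeasure μ] (S : X ≃ᵐ X)
    (hS : MeasurePreserving S μ μ) (D : ℕ) (hD : 1 ≤ D) {A : Set X} (hA : MeasurableSet A) :
    ∃ q : X → ℝ, Measurable q ∧ (∀ x, 0 ≤ q x ∧ q x ≤ 1) ∧ ∫ x, (1 - q x) ∂μ ≤ D * μ.real A ∧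
      Slow S q (4 / D) (4 / D) (wt A) := by
  obtain ⟨K, hK0, hKl, hK⟩ := kernel D hD
  have hD0 : (0:ℝ) < D := by exact_mod_cast hD
  have hs : ∀ m, Summable fun k => |(dz^[m] K) k| := fun m => (hK m).1
  have hs0 : Summable fun k => |K k| := hs 0
  have hK1 : ∑' k, |K k| ≤ 1 := by simpa using (hK 0).2
  set a : X → ℝ := fat S D A with ha
  have ha01 : ∀ x, 0 ≤ a x ∧ a x ≤ 1 := fun x => ⟨fat_nonneg S D A x, fat_le_one S D A x⟩
  have ham : Measurable a := fat_meas S D hA
  set F : X → ℝ := av S K a with hF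
  have hFm : Measurable F := av_meas S ham
  have hF0 : ∀ x, 0 ≤ F x := fun x => tsum_nonneg fun k => mul_nonneg (hK0 k) (ha01 _).1
  have hF1 : ∀ x, F x ≤ 1 := fun x => (le_abs_self _).trans ((av_bound S hs0 ha01 x).trans hK1)
  have hFA : ∀ x ∈ A, 1 / 28 ≤ F x := by
    intro x hx
    have hsum := av_summable S hs0 ha01 x
    have h1 : ∑ k ∈ (Finset.range D).image (fun j : ℕ => -(j:ℤ)), K k * a (sz S k x) ≤ F x :=
      hsum.sum_le_tsum _ fun k _ => mul_nonneg (hK0 k) (ha01 _).1
    refine le_trans ?_ h1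
    rw [Finset.sum_image (fun i _ j _ hij => by omega)]
    have h2 : ∀ j ∈ Finset.range D, 1 / (28 * (D:ℝ)) ≤ K (-(j:ℤ)) * a (sz S (-(j:ℤ)) x) := by
      intro j hj
      have hj' := Finset.mem_range.1 hj
      have h3 : a (sz S (-(j:ℤ)) x) = 1 := by
        refine fat_eq_one S D A _ j hj' ?_
        have h4 : S^[j] (sz S (-(j:ℤ)) x) = x := by
          have h5 : ∀ y, S^[j] y = ((S.toEquiv : Equiv.Perm X) ^ j) y := by
            intro y
            rw [Equiv.Perm.coe_pow]
            rfl
          rw [h5]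
          show ((S.toEquiv : Equiv.Perm X) ^ j) (((S.toEquiv : Equiv.Perm X) ^ (-(j:ℤ))) x) = x
          rw [← Equiv.Perm.mul_apply, zpow_neg, zpow_natCast, mul_inv_cancel]
          rfl
        rw [h4]
        exact hx
      rw [h3, mul_one]
      refine hKl _ ?_
      rw [abs_neg, abs_of_nonneg (by positivity)]
      exact_mod_cast hj'.le
    refine le_trans (le_of_eq ?_) (Finset.sum_le_sum h2)
    rw [Finset.sum_const, Finset.card_range, nsmul_eq_mul]
    field_simp
  have hFd : ∀ m x, |(dl S)^[m] F x| ≤ (2 / D) ^ m := by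
    intro m x
    rw [hF, av_dl_iter S hs ha01 m]
    exact (av_bound S (hs m) ha01 x).trans (hK m).2
  set q : X → ℝ := fun x => 1 - F x with hq
  have hq01 : ∀ x, 0 ≤ q x ∧ q x ≤ 1 := fun x => ⟨by have := hF1 x; simp only [hq]; linarith,
    by have := hF0 x; simp only [hq]; linarith⟩
  have hqd : ∀ m x, 1 ≤ m → |(dl S)^[m] q x| ≤ (2 / D) ^ m := by
    intro m x hm
    obtain ⟨m, rfl⟩ : ∃ m', m = m' + 1 := ⟨m - 1, by omega⟩
    have h1 : dl S q = fun x => - dl S F x := by
      funext x
      simp only [dl, hq]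
      ring
    have h2 : ∀ (m : ℕ) (f : X → ℝ), (dl S)^[m] (fun x => - f x) = fun x => - (dl S)^[m] f x := by
      intro m
      induction m with
      | zero => intro f; rfl
      | succ m ih =>
        intro f
        rw [Function.iterate_succ_apply, Function.iterate_succ_apply, ← ih]
        congr 1
        funext x
        simp only [dl]
        ring
    rw [Function.iterate_succ_apply, h1, h2, abs_neg, ← Function.iterate_succ_apply (dl S)]
    exact hFd _ _
  refine ⟨q, measurable_const.sub hFm, hq01, ?_, ?_⟩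
  · have : ∀ x, 1 - q x = F x := fun x => by simp only [hq]; ring
    simp only [this]
    exact (av_int S hS hs0 hK0 hK1 ham ha01).trans (fat_int S hS D hA)
  · intro m n x
    have hw0 : (55 / 56 : ℝ) ≤ wt A x := wt_low A x
    rcases Nat.eq_zero_or_pos m with hm | hm
    · subst hm
      rw [Function.iterate_zero, id_eq, pow_zero, one_mul, abs_of_nonneg (hq01 _).1]
      by_cases hx : x ∈ A
      · rw [wt_mem hx]
        have h1 : ∀ n : ℕ, q (S^[n] x) ≤ q x + n * (2 / D) := by
          intro n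
          induction n with
          | zero => simp
          | succ n ih =>
            rw [Function.iterate_succ_apply']
            have h2 := hqd 1 (S^[n] x) le_rfl
            rw [Function.iterate_one, pow_one] at h2
            have h3 := le_of_abs_le h2
            simp only [dl] at h3
            push_cast
            linarith
        have h2 : q x ≤ 27 / 28 := by
          have := hFA x hx
          simp only [hq]
          linarith
        have h3 : 1 + 4 / (D:ℝ) * n ≤ Real.exp (4 / D * n) := by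
          rw [add_comm]; exact Real.add_one_le_exp _
        have h4 : 0 ≤ (n:ℝ) * (2 / D) := by positivity
        have h5 : 4 / (D:ℝ) * n = 2 * (n * (2 / D)) := by ring
        rw [h5] at h3 ⊢
        have h6 := h1 n
        nlinarith
      · rw [wt_not hx, mul_one]
        exact ((hq01 _).2).trans (Real.one_le_exp (by positivity))
    · have h1 := hqd m (S^[n] x) hm
      refine h1.trans ?_
      have h2 : (2 / (D:ℝ)) ^ m ≤ (1/2) * (4 / D) ^ m := by
        have h3 : (2 / (D:ℝ)) ^ m = (1/2) ^ m * (4 / D) ^ m := by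
          rw [← mul_pow]; congr 1; ring
        rw [h3]
        have h4 : ((1:ℝ)/2) ^ m ≤ (1/2) ^ 1 := pow_le_pow_of_le_one (by norm_num) (by norm_num) hm
        rw [pow_one] at h4
        gcongr
      refine h2.trans ?_
      have h5 : (1:ℝ) ≤ Real.exp (4 / D * n) := Real.one_le_exp (by positivity)
      have h6 : 0 ≤ (4 / (D:ℝ)) ^ m := by positivity
      calc (1/2) * (4 / (D:ℝ)) ^ m ≤ (55 / 56) * (4 / (D:ℝ)) ^ m :=
            mul_le_mul_of_nonneg_right (by norm_num) h6
        _ = (4 / (D:ℝ)) ^ m * 1 * (55 / 56) := by ring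
        _ ≤ _ := by gcongr

end

end Pool.Agent.TH550.LP
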